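import Pool.Agent.Lib_helper75.Miller.Laver

/-!
Thinning of a code. The partial sums of the branches of the thinned code lie, from the stem on, in
the blocks of a fixed partition that are listed by a given increasing sequence.
-/

set_option autoImplicit false

namespace Pool.Agent.Miller

/-- The partial sums of a sequence, made strictly increasing. -/
noncomputable def dseq (y : ℕ → ℕ) (k : ℕ) : ℕ := (∑ i ∈ Finset.range (k + 1), y i) + k

theorem strictMono_dseq (y : ℕ → ℕ) : StrictMono (dseq y) := by
  refine strictMono_nat_of_lt_succ fun k => ?_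
  unfold dseq
  rw [Finset.sum_range_succ _ (k + 1)]
  omega

/-- The sum of the terms of a node plus its length. -/
def wsum (s : Node) : ℕ := s.sum + s.length

/-- An index of an immediate successor of the node `s` with a large new entry. -/
noncomputable def kk (c : Node → Node) (s : Node) (a : ℕ) : ℕ :=
  pick fun k => a ≤ nth (c (k :: s)) (c s).length

/-- The weight of the node with index `e`. -/
noncomputable def pw (c : Node → Node) (a e : ℕ) : ℕ :=
  ((Encodable.decode e : Option Node).map fun s => wsum (c (kk c s a :: s))).getD 0

/-- The partition. -/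
noncomputable def part (c : Node → Node) : ℕ → ℕ
  | 0 => 0
  | m + 1 => max (part c m + 1) ((Finset.range (m + 1)).sup (pw c (part c m)))

/-- The thinning. -/
noncomputable def thin (c : Node → Node) (Z : ℕ → ℕ) : Node → Node
  | [] => []
  | k :: s => kk c (thin c Z s) (part c (Z (Encodable.encode (thin c Z s) + 1 + k))) :: thin c Z s

theorem strictMono_part (c : Node → Node) : StrictMono (part c) := by
  refine strictMono_nat_of_lt_succ fun m => ?_
  rw [part]
  exact lt_of_lt_of_le (Nat.lt_succ_self _) (le_max_left _ _)

theorem wsum_le_part (c : Node → Node) {s : Node} {m : ℕ} (h : Encodable.encode s ≤ m) :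
    wsum (c (kk c s (part c m) :: s)) ≤ part c (m + 1) := by
  rw [part]
  refine le_trans ?_ (le_max_right _ _)
  have h1 : pw c (part c m) (Encodable.encode s) = wsum (c (kk c s (part c m) :: s)) := by
    unfold pw
    rw [Encodable.encodek]
    rfl
  rw [← h1]
  exact Finset.le_sup (f := pw c (part c m)) (Finset.mem_range.mpr (by omega))

theorem kk_spec {c : Node → Node} (hc : IsCode c) (s : Node) (a : ℕ) :
    a ≤ nth (c (kk c s a :: s)) (c s).length := by
  refine pick_spec (P := fun k => a ≤ nth (c (k :: s)) (c s).length) ?_
  have h1 : Function.Injective fun k => nth (c (k :: s)) (c s).length := by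
    intro n m h
    simp only at h
    obtain ⟨i, hi⟩ := hc.ext s n
    obtain ⟨j, hj⟩ := hc.ext s m
    have h2 := nth_suffix hi (i := (c s).length) (by simp)
    have h3 := nth_suffix hj (i := (c s).length) (by simp)
    rw [nth_cons] at h2 h3
    rw [← h2, ← h3] at h
    subst h
    exact hc.inj s n m i hi hj
  obtain ⟨k, hk⟩ := (Set.infinite_range_of_injective h1).exists_gt a
  obtain ⟨⟨n, rfl⟩, hk⟩ := hk
  exact ⟨n, hk.le⟩

theorem nth_lt_wsum (s : Node) {i : ℕ} (hi : i < s.length) : nth s i < wsum s := by
  have h1 : nth s i ∈ s := by
    unfold nth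
    rw [List.getD_eq_getElem _ _ (by simpa using hi)]
    exact List.mem_reverse.mp (List.getElem_mem _)
  have h2 := List.single_le_sum (by simp) _ h1
  unfold wsum
  omega

theorem isCode_thin {c : Node → Node} (hc : IsCode c) {Z : ℕ → ℕ} (hZ : StrictMono Z) :
    IsCode (thin c Z) where
  ext s n := ⟨_, List.suffix_refl _⟩
  inj s n m k h1 h2 := by
    have key : ∀ n m : ℕ, (k :: thin c Z s) <:+ thin c Z (n :: s) →
        (k :: thin c Z s) <:+ thin c Z (m :: s) → ¬ n < m := by
      intro n m h1 h2 hnm
      have h3 := h1.eq_of_length (by simp [thin])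
      have h4 := h2.eq_of_length (by simp [thin])
      rw [thin] at h3 h4
      have h3' := (List.cons.inj h3).1
      have h4' := (List.cons.inj h4).1
      have h5 : part c (Z (Encodable.encode (thin c Z s) + 1 + m)) ≤
          nth (c (k :: thin c Z s)) (c (thin c Z s)).length := by
        rw [h4']
        exact kk_spec hc _ _
      have h6 : wsum (c (k :: thin c Z s)) ≤
          part c (Z (Encodable.encode (thin c Z s) + 1 + n) + 1) := by
        rw [h3']
        refine wsum_le_part c ?_
        have := hZ.id_le (Encodable.encode (thin c Z s) + 1 + n)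
        simp only [id] at this
        omega
      have h7 : part c (Z (Encodable.encode (thin c Z s) + 1 + n) + 1) ≤
          part c (Z (Encodable.encode (thin c Z s) + 1 + m)) := by
        refine (strictMono_part c).monotone ?_
        exact hZ (by omega)
      have h8 : nth (c (k :: thin c Z s)) (c (thin c Z s)).length < wsum (c (k :: thin c Z s)) := by
        refine nth_lt_wsum _ ?_
        obtain ⟨j, hj⟩ := hc.ext (thin c Z s) k
        have := hj.length_le
        simp at this
        omega
      omega
    have h3 := key n m h1 h2
    have h4 := key m n h2 h1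
    omega

theorem dseq_eq (y : ℕ → ℕ) (k : ℕ) : dseq y k + 1 = wsum (res y (k + 1)) := by
  have h1 : ∀ n, (res y n).sum = ∑ i ∈ Finset.range n, y i := by
    intro n
    induction n with
    | zero => rfl
    | succ n ih =>
      rw [res_succ, List.sum_cons, ih, Finset.sum_range_succ]
      omega
  unfold dseq wsum
  rw [length_res, h1]
  omega

theorem wsum_mono {s t : Node} (h : s <:+ t) : wsum s ≤ wsum t := by
  obtain ⟨u, rfl⟩ := h
  unfold wsum
  rw [List.sum_append, List.length_append]
  omega

theorem dseq_thin {c : Node → Node} (hc : IsCode c) {Z : ℕ → ℕ} (hZ : StrictMono Z) (y : ℕ → ℕ)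
    {i : ℕ} (hi : (c []).length ≤ i) :
    ∃ r, part c (Z r) ≤ dseq (ev (c ∘ thin c Z) y) i ∧
      dseq (ev (c ∘ thin c Z) y) i < part c (Z r + 1) := by
  have he : IsCode (c ∘ thin c Z) := hc.comp (isCode_thin hc hZ)
  have h0 : ∃ n, i < ((c ∘ thin c Z) (res y n)).length := by
    refine ⟨i + 1, ?_⟩
    have := he.length_le (res y (i + 1))
    rw [length_res] at this
    omega
  classical
  obtain ⟨n, hn1, hn2⟩ : ∃ n, ((c ∘ thin c Z) (res y n)).length ≤ i ∧
      i < ((c ∘ thin c Z) (res y (n + 1))).length := by
    have h1 := Nat.find_spec h0
    have h2 : Nat.find h0 ≠ 0 := by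
      intro h3
      rw [h3] at h1
      have h4 : ((c ∘ thin c Z) (res y 0)).length = (c []).length := rfl
      omega
    obtain ⟨n, hn⟩ := Nat.exists_eq_succ_of_ne_zero h2
    refine ⟨n, ?_, ?_⟩
    · have := Nat.find_min h0 (m := n) (by omega)
      omega
    · rw [hn] at h1
      exact h1
  refine ⟨Encodable.encode (thin c Z (res y n)) + 1 + y n, ?_, ?_⟩
  · have h1 : part c (Z (Encodable.encode (thin c Z (res y n)) + 1 + y n)) ≤
        nth ((c ∘ thin c Z) (res y (n + 1))) (c (thin c Z (res y n))).length := by
      exact kk_spec hc (thin c Z (res y n)) _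
    have h2 : nth ((c ∘ thin c Z) (res y (n + 1))) (c (thin c Z (res y n))).length =
        ev (c ∘ thin c Z) y (c (thin c Z (res y n))).length := by
      have h3 := res_ev he y (n + 1)
      have h4 : (c (thin c Z (res y n))).length < ((c ∘ thin c Z) (res y (n + 1))).length :=
        lt_of_le_of_lt hn1 hn2
      rw [← nth_res (ev (c ∘ thin c Z) y) h4, h3]
    rw [h2] at h1
    refine h1.trans ?_
    have h5 : ev (c ∘ thin c Z) y (c (thin c Z (res y n))).length ≤
        ∑ j ∈ Finset.range (i + 1), ev (c ∘ thin c Z) y j := by
      refine Finset.single_le_sum (f := fun j => ev (c ∘ thin c Z) y j) (fun _ _ => Nat.zero_le _) ?_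
      refine Finset.mem_range.mpr ?_
      have : (c (thin c Z (res y n))).length ≤ i := hn1
      omega
    unfold dseq
    omega
  · have h1 : dseq (ev (c ∘ thin c Z) y) i + 1 ≤ wsum ((c ∘ thin c Z) (res y (n + 1))) := by
      rw [dseq_eq]
      refine wsum_mono ?_
      have h3 := res_ev he y (n + 1)
      have h4 := res_suffix (ev (c ∘ thin c Z) y) (show i + 1 ≤ _ from hn2)
      rwa [h3] at h4
    have h2 : wsum ((c ∘ thin c Z) (res y (n + 1))) ≤
        part c (Z (Encodable.encode (thin c Z (res y n)) + 1 + y n) + 1) := by
      refine wsum_le_part c ?_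
      have := hZ.id_le (Encodable.encode (thin c Z (res y n)) + 1 + y n)
      simp only [id] at this
      omega
    omega

/-! ### Measurability -/

theorem measurable_sup_range {Y : Type*} [MeasurableSpace Y] {f : Y → ℕ → ℕ}
    (hf : ∀ e, Measurable fun y => f y e) (n : ℕ) :
    Measurable fun y => (Finset.range n).sup (f y) := by
  induction n with
  | zero => simp
  | succ n ih =>
    have h1 : ∀ y, (Finset.range (n + 1)).sup (f y) = max (f y n) ((Finset.range n).sup (f y)) := by
      intro y
      rw [Finset.range_add_one, Finset.sup_insert]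
    simp only [h1]
    exact (hf n).max ih

theorem measurable_kk {Y : Type*} [MeasurableSpace Y] {c : Y → Node → Node}
    (hc : ∀ s, Measurable fun y => c y s) (s : Node) (a : ℕ) :
    Measurable fun y => kk (c y) s a := by
  refine measurable_pick fun k => ?_
  have h1 : Measurable fun y => nth (c y (k :: s)) (c y s).length := by
    refine measurable_comp_countable (f := fun y (t : Node) => nth (c y (k :: s)) t.length)
      (fun t => ?_) (hc s)
    exact (Measurable.of_discrete (f := fun u : Node => nth u t.length)).comp (hc (k :: s))
  exact h1 (MeasurableSet.of_discrete (s := {b : ℕ | a ≤ b}))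

theorem measurable_pw {Y : Type*} [MeasurableSpace Y] {c : Y → Node → Node}
    (hc : ∀ s, Measurable fun y => c y s) (a e : ℕ) : Measurable fun y => pw (c y) a e := by
  unfold pw
  cases (Encodable.decode e : Option Node) with
  | none => exact measurable_const
  | some s =>
    simp only [Option.map_some, Option.getD_some]
    refine (Measurable.of_discrete (f := wsum)).comp ?_
    exact measurable_comp_countable (f := fun y (k : ℕ) => c y (k :: s)) (fun k => hc (k :: s))
      (measurable_kk hc s a)

theorem measurable_part {Y : Type*} [MeasurableSpace Y] {c : Y → Node → Node}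
    (hc : ∀ s, Measurable fun y => c y s) (m : ℕ) : Measurable fun y => part (c y) m := by
  induction m with
  | zero => exact measurable_const
  | succ m ih =>
    exact measurable_comp_countable (f := fun y (a : ℕ) =>
      max (a + 1) ((Finset.range (m + 1)).sup (pw (c y) a)))
      (fun a => measurable_const.max (measurable_sup_range (fun e => measurable_pw hc a e) _)) ih

theorem measurable_thin {Y : Type*} [MeasurableSpace Y] {c : Y → Node → Node}
    (hc : ∀ s, Measurable fun y => c y s) {Z : Y → ℕ → ℕ} (hZ : Measurable Z) (s : Node) :
    Measurable fun y => thin (c y) (Z y) s := by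
  induction s with
  | nil => exact measurable_const
  | cons k s ih =>
    refine measurable_comp_countable (f := fun y (t : Node) =>
      kk (c y) t (part (c y) (Z y (Encodable.encode t + 1 + k))) :: t) (fun t => ?_) ih
    refine (Measurable.of_discrete (f := fun j : ℕ => j :: t)).comp ?_
    refine measurable_comp_countable (f := fun y (a : ℕ) => kk (c y) t a)
      (fun a => measurable_kk hc t a) ?_
    exact measurable_comp_countable (f := fun y (m : ℕ) => part (c y) m)
      (fun m => measurable_part hc m) ((measurable_pi_apply _).comp hZ)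

end Pool.Agent.Miller
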